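import Mathlib
import Pool.Agent.Run7.h854.CO.All

set_option autoImplicit false

/-!
# The numbers `(a ^ p - b ^ p) / (a - b)`: the correlations of the exponents of all orders, among all
primes, for almost every amplitude

For integers `a`, `b` with `1 ≤ |b| < a`, a real `β > 0` and a prime `p` let `W a b β p` be the
`p`-rough part (the product, with multiplicity, of the prime factors larger than `p`) of
`⌈β a ^ p⌉ - ⌈b ^ p / (a - b)⌉`.  For coprime `a`, `b` and `β = 1 / (a - b)` this is the number
`(a ^ p - b ^ p) / (a - b)` of the question, for every prime `p` that does not divide `a - b`.  The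
exponents of `β` are the primes `p` with `W a b β p` prime.

According to the Poisson model behind the conjecture (the events that the different primes `p` are
exponents are independent and have the probabilities `κ a * log p / p`,
`κ a = e ^ γ / log a`) the exponents form, on the scale `log p`, a Poisson process of intensity `κ a`.
Its correlation function of order `r + 1` is the constant `(κ a) ^ (r + 1)`: the number of the tuples of
exponents `p₀ < p₁ < … < p_r` with `p₀ ≤ n` and `u i < p (i + 1) / p i ≤ v i` should be asymptotic to
`(κ a) ^ (r + 1) (∏ log (v i / u i)) log n`.  (For `r = 0` this is the law of the question.)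

We prove this, for the exponents among **all primes**, for almost every `β > 0`, for **every** pair `(a, b)` at once,
and for **all orders**, as long as the ratios of the exponents are at least a constant `C a b`, which does not
depend on the pair if `b ^ 2 ≤ a`.  For example, for almost every `β`, the number of the pairs of exponents
`p ≤ n`, `p < q` with `u < q / p ≤ v`, where `C ≤ u < v`, is asymptotic to
`(e ^ γ / log a) ^ 2 log (v / u) log n`.  More generally the `i`-th exponent of the tuple can be
restricted to a set `S i` of primes with a density `δ i`, for example a residue class; the density of a tuple is multiplied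
by `∏ δ i`.  (For the ratios `q / p` close to one only upper bounds are known: even for almost every
amplitude this is a problem of the type of the twin prime problem.)

Proof.  The primes are divided into the cells `(exp (g h), exp ((g + 1) h)]`.  Let `Z g` be the
number of exponents in the cell `g`.  By the starting theorem on primes in almost all short intervals
(`Pool.Agent.N618`), the mean of `Z g`, given the digits of `β` up to `1 / C` times the beginning of the cell, tends
to `κ a * h` for almost every `β` (**pointwise**, as the error, apart from a part that tends to zero, has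
summable means), and by an upper bound sieve its mean square, given these
digits, is bounded, for **every** beginning.  So the differences
`∏ Z (g + d i) - (the same with the mean of the last factor)` are orthogonal within residue classes and have bounded mean squares,
and by induction the means of `∏ Z (g + d i)` over `g` tend to `(κ a h) ^ (r + 1)` for almost every `β`.
Then `h → 0` (the files `Run7/h854/CO`).
-/

namespace Pool.Agent.Results.MP_de9007_nt.CorrelationsOfExponents

open Filter Topology MeasureTheory

/-- The product, with multiplicity, of the prime factors of `m` that are larger than `p`. -/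
def roughPart (p m : ℕ) : ℕ := (m.primeFactorsList.filter (fun r => p < r)).prod

/-- The `p`-rough part of `⌈β a ^ p⌉ - ⌈b ^ p / (a - b)⌉`. -/
noncomputable def W (a : ℕ) (b : ℤ) (β : ℝ) (p : ℕ) : ℕ :=
  roughPart p (⌈β * (a : ℝ) ^ p⌉ - ⌈(b : ℝ) ^ p / ((a : ℝ) - b)⌉).toNat

/-- The constant `e ^ γ / log a`. -/
noncomputable def κ (a : ℕ) : ℝ := Real.exp Real.eulerMascheroniConstant / Real.log a

/-- `S` is a set of primes, and the sum of `log p` over the `p ≤ x` in `S` is asymptotic to `δ x`. -/
def HasDensity (S : Set ℕ) (δ : ℝ) : Prop :=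
  (∀ p ∈ S, p.Prime) ∧
  Tendsto (fun x : ℝ => (∑ p ∈ Finset.Icc 1 ⌊x⌋₊, S.indicator (fun p : ℕ => Real.log p) p) / x)
    atTop (𝓝 δ)

/-- The tuples of exponents `p 0, …, p r` of `β` with `p i` in `S i`, `p 0 ≤ n` and
`u i < p (i + 1) / p i ≤ v i`. -/
def Tuples (a : ℕ) (b : ℤ) (S : ℕ → Set ℕ) (β : ℝ) {r : ℕ} (u v : Fin r → ℝ) (n : ℕ) :
    Set (Fin (r + 1) → ℕ) :=
  {p | (∀ i : Fin (r + 1), p i ∈ S i ∧ (W a b β (p i)).Prime) ∧ p 0 ≤ n ∧
    ∀ i : Fin r, u i * p i.castSucc < p i.succ ∧ (p i.succ : ℝ) ≤ v i * p i.castSucc}

/-- The special values; the densities of the set of all primes and of the primes in a residue class; for almost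
every `β`, for all pairs `(a, b)`, the correlations of the exponents of all orders, at ratios at least
`C a b`, are those of the Poisson model. -/
theorem result :
    (∀ (a : ℕ) (b : ℤ), 1 ≤ |b| → |b| < a → IsCoprime (a : ℤ) b → ∀ p : ℕ, p.Prime →
      ¬ (p : ℤ) ∣ a - b → (W a b (1 / ((a : ℝ) - b)) p : ℤ) * (a - b) = (a : ℤ) ^ p - b ^ p) ∧
    HasDensity {p | p.Prime} 1 ∧
    (∀ (q : ℕ) [NeZero q] (c : ZMod q), IsUnit c →
      HasDensity {p | p.Prime ∧ (p : ZMod q) = c} (1 / (q.totient : ℝ))) ∧
    ∃ (C : ℕ → ℤ → ℝ) (C₀ : ℝ), (∀ (a : ℕ) (b : ℤ), b ^ 2 ≤ a → C a b = C₀) ∧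
      ∀ (S : ℕ → Set ℕ) (δ : ℕ → ℝ), (∀ i, HasDensity (S i) (δ i)) →
      ∀ᵐ β : ℝ, 0 < β → ∀ (a : ℕ) (b : ℤ), 1 ≤ |b| → |b| < a →
      ∀ (r : ℕ) (u v : Fin r → ℝ), (∀ i, C a b ≤ u i ∧ u i ≤ v i) →
      Tendsto (fun n : ℕ => ((Tuples a b S β u v n).ncard : ℝ) / Real.log n) atTop
        (𝓝 ((∏ i : Fin (r + 1), κ a * δ i) * ∏ i : Fin r, Real.log (v i / u i))) := by
  refine ⟨fun a b _ h2 h3 p hp hpd => Pool.Agent.N176.SH.spe h2 h3 hp hpd, ⟨fun p hp => hp, ?_⟩,
    fun q _ c hc => ⟨fun p hp => hp.1, ?_⟩, ?_⟩
  · have h1 := Run7.h854.CO.hasD_class (q := 1) (a := 1) isUnit_one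
    rw [Nat.totient_one, Nat.cast_one, inv_one] at h1
    have e : {p : ℕ | p.Prime ∧ (p : ZMod 1) = 1} = {p | p.Prime} := by
      ext p
      constructor
      · exact fun h => h.1
      · exact fun h => ⟨h, Subsingleton.elim _ _⟩
    rw [e] at h1
    exact h1
  · have h1 := Run7.h854.CO.hasD_class hc
    rw [one_div]
    exact h1
  · obtain ⟨C, C₀, hC1, hC2⟩ := Run7.h854.CO.cor_pairs
    refine ⟨C, C₀, hC1, fun S δ hS => ?_⟩
    filter_upwards [hC2 S δ (fun i => (hS i).1) (fun i => (hS i).2)] with β hβ hβ0 a b hb hba r u v huv
    have h1 := hβ hβ0 a b hb hba r u v huv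
    rw [Finset.prod_range] at h1
    exact h1

end Pool.Agent.Results.MP_de9007_nt.CorrelationsOfExponents
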