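import Mathlib
import Pool.Agent.Run7.h854.LB.All

set_option autoImplicit false

/-!
# The numbers `(a ^ p - b ^ p) / (a - b)`: Poissonian statistics of the exponents among **all** primes,
in the limit of large bases, for almost every amplitude

For integers `a`, `b` with `1 ≤ |b| < a`, a real `β > 0` and a prime `p` let `W a b β p` be the
`p`-rough part (the product, with multiplicity, of the prime factors larger than `p`) of
`⌈β a ^ p⌉ - ⌈b ^ p / (a - b)⌉`.  For coprime `a`, `b` and `β = 1 / (a - b)` this is the number
`(a ^ p - b ^ p) / (a - b)` of the question, for every prime `p` that does not divide `a - b`.  The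
exponents of `β` are the primes `p` with `W a b β p` prime.

According to the Poisson model behind the conjecture (the events that the different primes `p` are
exponents are independent and have the probabilities `κ a * log p / p`,
`κ a = e ^ γ / log a`) the exponents should look like the points of
a Poisson process of intensity one in the time scale in which the prime `p` has the time
`κ a * V p`, `V n` being the sum of `log p / p` over the primes `p ≤ n` (this is
`e ^ γ log p / log a` up to a bounded error).  The file
`PoissonStatistics` of this page proves this, for almost every `β`, for every fixed pair `(a, b)`, but only for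
*thin* sets of primes.  The obstacle for the set of **all** primes is that for a fixed base nothing is known on the
correlations of exponents `p < q` with `q / p` close to one, only upper bounds by sieves.

Here we prove the statement for the set of **all** primes (and for every set of primes of infinite
weight) in the limit of large bases: for almost every `β > 0`, if `y` is random, uniform in `(0, X]`, then
the numbers of the exponents in the windows `(y + α s, y + α' s]`, for any finite number of disjoint windows,
are, as `X` tends to infinity, up to an error that tends to zero as `a` tends to infinity,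
**uniformly in all `b` with `b ^ 2 ≤ a`**, independent Poisson variables with the expectations `α' s - α s`.
A pair of exponents close to each other, `q ≤ C p`, then has a probability that is small compared to the length of
the window, of the order of `1 / log a`.

Proof.  For a base `a` the windows are treated as blocks of digits.  Given the first digits of `β` (up to the end of
the preceding window) the Laplace functional of a window is that of a Poisson process, up to an error
whose mean over all beginnings is `O(1 / log a)` uniformly in the pair, which is proved by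
the starting theorem on primes in almost all short intervals (`Pool.Agent.N618`) and upper
bound sieves valid for **every** beginning, all with constants that do not depend on the pair (`a`, `b`)
(the files `Run7/h854/LB`).  The differences are orthogonal, the Borel-Cantelli lemma gives the means over the grid for almost every `β`,
with a limiting error `O(1 / log a)`, and a continuity argument
(with ultrafilters) for the generating functions of the empirical measures gives the frequencies.
-/

namespace Pool.Agent.Results.MP_de9007_nt.PoissonInLargeBases

open Filter Topology MeasureTheory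

/-- The product, with multiplicity, of the prime factors of `m` that are larger than `p`. -/
def roughPart (p m : ℕ) : ℕ := (m.primeFactorsList.filter (fun r => p < r)).prod

/-- The `p`-rough part of `⌈β a ^ p⌉ - ⌈b ^ p / (a - b)⌉`. -/
noncomputable def W (a : ℕ) (b : ℤ) (β : ℝ) (p : ℕ) : ℕ :=
  roughPart p (⌈β * (a : ℝ) ^ p⌉ - ⌈(b : ℝ) ^ p / ((a : ℝ) - b)⌉).toNat

/-- The weight `∑ log p / p` of the elements `p ≤ n` of `S`. -/
noncomputable def V (S : Set ℕ) (n : ℕ) : ℝ :=
  ∑ p ∈ Finset.range (n + 1), S.indicator (fun p : ℕ => Real.log p / (p : ℝ)) p

/-- The constant `e ^ γ / log a`. -/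
noncomputable def κ (a : ℕ) : ℝ := Real.exp Real.eulerMascheroniConstant / Real.log a

/-- The number of the exponents `p` of `β` in `S` with the times `κ a * V S p` in `(x, y]`. -/
noncomputable def N (a : ℕ) (b : ℤ) (S : Set ℕ) (β x y : ℝ) : ℕ :=
  {p : ℕ | p ∈ S ∧ x < κ a * V S p ∧ κ a * V S p ≤ y ∧ (W a b β p).Prime}.ncard

/-- The proportion of the `y` in `(0, X]` such that exactly `k s` exponents of `β` in `S` have their
times in `(y + α s, y + α' s]`, for every `s`. -/
noncomputable def freq (a : ℕ) (b : ℤ) (S : Set ℕ) (β : ℝ) {r : ℕ} (α α' : Fin r → ℝ) (k : Fin r → ℕ)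
    (X : ℝ) : ℝ :=
  (volume {y : ℝ | 0 < y ∧ y ≤ X ∧ ∀ s, N a b S β (y + α s) (y + α' s) = k s}).toReal / X

lemma V_eq : V = Run7.h854.PQ.V := by
  funext S n
  rw [Run7.h854.PQ.V_eq]
  rfl

/-- The special values; the set of all primes has infinite weight; for every set `S` of primes of infinite weight
(for example the set of all primes), for almost every `β`, the exponents in `S` have Poissonian
statistics in the limit of large bases, uniformly in `b`. -/
theorem result :
    (∀ (a : ℕ) (b : ℤ), 1 ≤ |b| → |b| < a → IsCoprime (a : ℤ) b → ∀ p : ℕ, p.Prime →
      ¬ (p : ℤ) ∣ a - b → (W a b (1 / ((a : ℝ) - b)) p : ℤ) * (a - b) = (a : ℤ) ^ p - b ^ p) ∧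
    Tendsto (V {p | p.Prime}) atTop atTop ∧
    (∀ S : Set ℕ, (∀ p ∈ S, p.Prime) → Tendsto (V S) atTop atTop →
      ∀ᵐ β : ℝ, 0 < β → ∀ (r : ℕ) (α α' : Fin r → ℝ) (k : Fin r → ℕ), (∀ s, 0 ≤ α s ∧ α s ≤ α' s) →
      (∀ s s', s ≠ s' → α' s ≤ α s' ∨ α' s' ≤ α s) →
      ∀ ε : ℝ, 0 < ε → ∃ a₀ : ℕ, ∀ a ≥ a₀, ∀ b : ℤ, 1 ≤ |b| → b ^ 2 ≤ a → ∀ᶠ X : ℝ in atTop,
        |freq a b S β α α' k X -
          ∏ s, (Real.exp (-(α' s - α s)) * (α' s - α s) ^ k s / (k s).factorial)| < ε) := by
  refine ⟨fun a b _ h2 h3 p hp hpd => Pool.Agent.N176.SH.spe h2 h3 hp hpd, ?_, ?_⟩
  · rw [V_eq]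
    exact Run7.h854.LB.V_primes
  · intro S hSp hS
    rw [V_eq] at hS
    filter_upwards [Run7.h854.LB.large_pairs hSp hS] with β hβ hβ0 r α α' k h0 hd ε hε
    obtain ⟨a₀, ha₀⟩ := hβ hβ0 r α α' k h0 hd ε hε
    refine ⟨a₀, fun a ha b hb1 hba => ?_⟩
    have h1 := ha₀ a ha b hb1 hba
    unfold freq N
    rw [V_eq]
    exact h1

end Pool.Agent.Results.MP_de9007_nt.PoissonInLargeBases
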