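import Mathlib
import Pool.Agent.Run7.h854.PO.All

set_option autoImplicit false

/-!
# The numbers `(a ^ p - b ^ p) / (a - b)`: the Poisson law for the exponents in thin sets of primes

For integers `a`, `b` with `2 ≤ |b| < a`, a real `β > 0` and a prime `p` let `W a b β p` be the
`p`-rough part (the product, with multiplicity, of the prime factors larger than `p`) of
`⌈β a ^ p⌉ - ⌈b ^ p / (a - b)⌉`.  For coprime `a`, `b` and `β = 1 / (a - b)` this is the number
`(a ^ p - b ^ p) / (a - b)` of the question, for every prime `p` that does not divide `a - b`.  The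
exponents of `β` are the primes `p` with `W a b β p` prime.

According to the Poisson model behind the generalized Lenstra-Pomerance-Wagstaff conjecture the number
of exponents in a set `T` of primes is distributed like a Poisson variable with the expectation
`κ a * ∑ p ∈ T, log p / p`, `κ a = e ^ γ / log a`, and these numbers are independent for disjoint sets.
We prove this as a limit theorem, for a random amplitude `β` (uniform in an arbitrary interval), for
all sequences of families of disjoint finite sets of primes whose union is thin: the weight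
`∑ log p / p` of its part in `(x, 2 x]` tends to zero uniformly in `x`, and for every `h` so does the
weight of the `p` for which `p + h` is in the union, too.  (For example every `m_n`-th prime in a
window, `m_n → ∞`.)

The pairs `(a, 1)` and `(a, -1)` are in the files `MP_adea1b_nt/PoissonLaw.lean` (see there for the
proof) and `MP_ce8d0c_nt/PoissonLaw.lean`.
-/

namespace Pool.Agent.Results.MP_de9007_nt.PoissonLaw

open Filter Topology MeasureTheory

/-- The product, with multiplicity, of the prime factors of `m` that are larger than `p`. -/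
def roughPart (p m : ℕ) : ℕ := (m.primeFactorsList.filter (fun r => p < r)).prod

/-- The `p`-rough part of `⌈β a ^ p⌉ - ⌈b ^ p / (a - b)⌉`. -/
noncomputable def W (a : ℕ) (b : ℤ) (β : ℝ) (p : ℕ) : ℕ :=
  roughPart p (⌈β * (a : ℝ) ^ p⌉ - ⌈(b : ℝ) ^ p / ((a : ℝ) - b)⌉).toNat

/-- The number of the elements `p` of `T` for which `W a b β p` is prime. -/
noncomputable def N (a : ℕ) (b : ℤ) (β : ℝ) (T : Finset ℕ) : ℕ :=
  (T.filter (fun p => (W a b β p).Prime)).card

/-- The weight of a finite set. -/
noncomputable def V (T : Finset ℕ) : ℝ := ∑ p ∈ T, Real.log p / p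

/-- The union of a finite family of finite sets. -/
def U {r : ℕ} (T : Fin r → Finset ℕ) : Finset ℕ := Finset.univ.biUnion T

/-- The constant `e ^ γ / log a`. -/
noncomputable def κ (a : ℕ) : ℝ := Real.exp Real.eulerMascheroniConstant / Real.log a

/-- The families `T n` consist of disjoint finite sets of primes; the elements of the union of `T n`
tend to infinity with `n`, and the union is thin: its weight in the intervals `(x, 2 x]` tends to zero
uniformly in `x`, and for every `h ≥ 1` the weight of the `p` in the union with `p + h` in the union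
tends to zero. -/
structure Thin {r : ℕ} (T : ℕ → Fin r → Finset ℕ) : Prop where
  prime : ∀ n s, ∀ p ∈ T n s, p.Prime
  disjoint : ∀ n s s', s ≠ s' → Disjoint (T n s) (T n s')
  large : ∀ M : ℕ, ∀ᶠ n in atTop, ∀ p ∈ U (T n), M < p
  thin : ∀ δ : ℝ, 0 < δ → ∀ᶠ n in atTop, ∀ x : ℕ, V ((U (T n)).filter (fun p => x < p ∧ p ≤ 2 * x)) ≤ δ
  pairs : ∀ h : ℕ, 1 ≤ h →
    Tendsto (fun n => V ((U (T n)).filter (fun p => p + h ∈ U (T n)))) atTop (𝓝 0)

/-- The special values; the joint Poisson law for the numbers of exponents in thin families of disjoint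
sets of primes, for every pair `(a, b)`. -/
theorem result :
    (∀ (a : ℕ) (b : ℤ), 2 ≤ |b| → |b| < a → IsCoprime (a : ℤ) b → ∀ p : ℕ, p.Prime →
      ¬ (p : ℤ) ∣ a - b → (W a b (1 / ((a : ℝ) - b)) p : ℤ) * (a - b) = (a : ℤ) ^ p - b ^ p) ∧
    (∀ (a : ℕ) (b : ℤ), 2 ≤ |b| → |b| < a →
      ∀ (r : ℕ) (T : ℕ → Fin r → Finset ℕ) (lam : Fin r → ℝ), Thin T →
      (∀ s, Tendsto (fun n => κ a * V (T n s)) atTop (𝓝 (lam s))) →
      ∀ u v : ℝ, 0 ≤ u → u < v → ∀ k : Fin r → ℕ,
      Tendsto (fun n => volume {β : ℝ | u < β ∧ β ≤ v ∧ ∀ s, N a b β (T n s) = k s}) atTop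
        (𝓝 (ENNReal.ofReal
          ((v - u) * ∏ s, (Real.exp (-lam s) * lam s ^ k s / (k s).factorial))))) := by
  refine ⟨fun a b _ h2 h3 p hp hpd => Pool.Agent.N176.SH.spe h2 h3 hp hpd, ?_⟩
  intro a b hb hba r T lam hT hlam u v hu huv k
  have hT' : Run7.h854.PO.Thin (Pool.Agent.N176.OW.kap a) T lam :=
    { disj := fun n s s' h => hT.disjoint n s s' h
      min := hT.large
      thin := hT.thin
      pair := hT.pairs
      mass := hlam }
  refine Run7.h854.PO.to_ennreal (u := u) (v := v) (fun n β h => ⟨h.1, h.2.1⟩) ?_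
  refine Run7.h854.PO.poisson_pair (by omega) hba hT' ?_ hu huv k
  filter_upwards [hT.large 2] with n hn s p hp
  left
  refine (hT.prime n s p hp).odd_of_ne_two ?_
  have := hn p (Finset.mem_biUnion.2 ⟨s, Finset.mem_univ s, hp⟩)
  omega

end Pool.Agent.Results.MP_de9007_nt.PoissonLaw
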