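import Mathlib
import Pool.Agent.Run7.h854.PQ.All

set_option autoImplicit false

/-!
# The numbers `(a ^ p - b ^ p) / (a - b)`: Poissonian statistics of the exponents, for almost
every amplitude

For integers `a`, `b` with `2 ≤ |b| < a`, a real `β > 0` and a prime `p` let `W a b β p` be the
`p`-rough part (the product, with multiplicity, of the prime factors larger than `p`) of
`⌈β a ^ p⌉ - ⌈b ^ p / (a - b)⌉`.  For coprime `a`, `b` and `β = 1 / (a - b)` this is the number
`(a ^ p - b ^ p) / (a - b)` of the question, for every prime `p` that does not divide `a - b`.  The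
exponents of `β` are the primes `p` with `W a b β p` prime.

According to the Poisson model behind the conjecture (the events that the different primes `p` are
exponents are independent and have the probabilities `κ a * log p / p`,
`κ a = e ^ γ / log a`) the exponents in a set `S` of primes should look like the points of
a Poisson process of intensity one in the time scale in which the prime `p` has the time
`κ a * V S p`, `V S n` being the sum of `log p / p` over the `p ≤ n` in `S`.  The companion file
`PoissonLaw` of this page proves this for a random amplitude `β`, as a limit theorem for finite sets.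
Here we prove it for **almost every individual amplitude** `β`: for every set `S` of primes that is thin
the exponents of almost every `β` in `S` have Poissonian statistics of all orders.  That is, if `y` is
random, uniform in `(0, X]`, then the numbers of the exponents in the windows
`(y + α s, y + α' s]` (in the time scale), for any finite number of disjoint windows, are asymptotically
independent Poisson variables with the expectations `α' s - α s`, as `X` tends to infinity
(for almost every `β`, for all pairs `(a, b)` at once).  (For example one window and `k = 0` is the law of the gaps.)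

The set `S` is thin (`Thin S`) if its weight `V S` is infinite, the weight of its part in `(x, 2 x]`
tends to zero, and for every `h ≥ 1` the `p` in `S` with `p + h` in `S` have a negligible part of the
weight; for example every `m_i`-th prime in `(2 ^ i, 2 ^ (i + 1)]`, where `m_i` tends slowly to
infinity.  (For the set of all primes nothing is known on the correlations of exponents
`p < q` with `q / p` close to one, only upper bounds.)

Proof.  The windows of a grid in the time scale, with free time between them, are treated as blocks
of digits.  Given the first digits of `β` (up to the end of the preceding window) the Laplace functional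
of a window is that of a Poisson process, up to an error whose mean over all beginnings is controlled by
the starting theorem on primes in almost all short intervals (`Pool.Agent.N176.OW.All.fm`) and by upper
bound sieves valid for **every** beginning (`Run7/h854/PO`, `N176/SH`).  The differences are orthogonal,
the Borel-Cantelli lemma gives the convergence of the means over the grid for almost every `β`, and the
continuity theorem for generating functions, applied to the empirical measures, gives the frequencies
(`Run7/h854/PQ`).

The pairs `(a, 1)` and `(a, -1)` are in the files `PoissonStatistics.lean` of MP_adea1b_nt and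
MP_ce8d0c_nt.
-/

namespace Pool.Agent.Results.MP_de9007_nt.PoissonStatistics

open Filter Topology MeasureTheory

/-- The product, with multiplicity, of the prime factors of `m` that are larger than `p`. -/
def roughPart (p m : ℕ) : ℕ := (m.primeFactorsList.filter (fun r => p < r)).prod

/-- The `p`-rough part of `⌈β a ^ p⌉ - ⌈b ^ p / (a - b)⌉`. -/
noncomputable def W (a : ℕ) (b : ℤ) (β : ℝ) (p : ℕ) : ℕ :=
  roughPart p (⌈β * (a : ℝ) ^ p⌉ - ⌈(b : ℝ) ^ p / ((a : ℝ) - b)⌉).toNat

/-- The weight `∑ log p / p` of the elements `p ≤ n` of `S`. -/
noncomputable def V (S : Set ℕ) (n : ℕ) : ℝ :=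
  ∑ p ∈ Finset.range (n + 1), S.indicator (fun p : ℕ => Real.log p / (p : ℝ)) p

/-- The constant `e ^ γ / log a`. -/
noncomputable def κ (a : ℕ) : ℝ := Real.exp Real.eulerMascheroniConstant / Real.log a

/-- `S` is a set of odd primes of infinite weight, the weight of its part in `(n, 2 n]` tends to
zero, and for every `h ≥ 1` the `p` in `S` with `p + h` in `S` have a negligible part of the weight. -/
structure Thin (S : Set ℕ) : Prop where
  prime : ∀ p ∈ S, p.Prime ∧ p ≠ 2
  infinite : Tendsto (V S) atTop atTop
  thin : Tendsto (fun n => V S (2 * n) - V S n) atTop (𝓝 0)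
  pairs : ∀ h : ℕ, 1 ≤ h → Tendsto (fun n => V {p | p ∈ S ∧ p + h ∈ S} n / V S n) atTop (𝓝 0)

/-- The number of the exponents `p` of `β` in `S` with the times `κ a * V S p` in `(x, y]`. -/
noncomputable def N (a : ℕ) (b : ℤ) (S : Set ℕ) (β x y : ℝ) : ℕ :=
  {p : ℕ | p ∈ S ∧ x < κ a * V S p ∧ κ a * V S p ≤ y ∧ (W a b β p).Prime}.ncard

lemma V_eq : V = Run7.h854.PQ.V := by
  funext S n
  rw [Run7.h854.PQ.V_eq]
  rfl

/-- The special values; for almost every `β`, for all pairs `(a, b)`, the exponents in a thin set of
primes have Poissonian statistics. -/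
theorem result :
    (∀ (a : ℕ) (b : ℤ), 2 ≤ |b| → |b| < a → IsCoprime (a : ℤ) b → ∀ p : ℕ, p.Prime →
      ¬ (p : ℤ) ∣ a - b → (W a b (1 / ((a : ℝ) - b)) p : ℤ) * (a - b) = (a : ℤ) ^ p - b ^ p) ∧
    (∀ S : Set ℕ, Thin S → ∀ᵐ β : ℝ, 0 < β → ∀ (a : ℕ) (b : ℤ), 2 ≤ |b| → |b| < a →
      ∀ (r : ℕ) (α α' : Fin r → ℝ) (k : Fin r → ℕ), (∀ s, 0 ≤ α s ∧ α s ≤ α' s) →
      (∀ s s', s ≠ s' → α' s ≤ α s' ∨ α' s' ≤ α s) →
      Tendsto (fun X : ℝ => (volume {y : ℝ | 0 < y ∧ y ≤ X ∧
        ∀ s, N a b S β (y + α s) (y + α' s) = k s}).toReal / X) atTop
        (𝓝 (∏ s, (Real.exp (-(α' s - α s)) * (α' s - α s) ^ k s / (k s).factorial)))) := by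
  refine ⟨fun a b _ h2 h3 p hp hpd => Pool.Agent.N176.SH.spe h2 h3 hp hpd, ?_⟩
  intro S hS
  have hS' : Run7.h854.PQ.IsThin S :=
    { inf := V_eq ▸ hS.infinite
      thin := V_eq ▸ hS.thin
      pairs := V_eq ▸ hS.pairs }
  have h1 : ∀ᵐ β : ℝ, ∀ (a : ℕ) (b : ℤ), 2 ≤ |b| → |b| < a → 0 < β →
      ∀ (r : ℕ) (α α' : Fin r → ℝ) (k : Fin r → ℕ), (∀ s, 0 ≤ α s ∧ α s ≤ α' s) →
      (∀ s s', s ≠ s' → α' s ≤ α s' ∨ α' s' ≤ α s) →
      Tendsto (fun X : ℝ => (volume {y : ℝ | 0 < y ∧ y ≤ X ∧
        ∀ s, N a b S β (y + α s) (y + α' s) = k s}).toReal / X) atTop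
        (𝓝 (∏ s, (Real.exp (-(α' s - α s)) * (α' s - α s) ^ k s / (k s).factorial))) := by
    rw [ae_all_iff]
    intro a
    rw [ae_all_iff]
    intro b
    by_cases hb : 2 ≤ |b|
    · by_cases hba : |b| < a
      · filter_upwards [Run7.h854.PQ.stat_pair (by omega) hba hS'
          (fun p hp => (hS.prime p hp).1.odd_of_ne_two (hS.prime p hp).2)]
          with β hβ _ _ hβ0 r α α' k h0 hd
        have h2 := hβ hβ0 r α α' k h0 hd
        unfold N
        rw [V_eq]
        exact h2
      · exact Eventually.of_forall fun β _ h => absurd h hba
    · exact Eventually.of_forall fun β h => absurd h hb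
  filter_upwards [h1] with β hβ hβ0 a b hb hba
  exact hβ a b hb hba hβ0

end Pool.Agent.Results.MP_de9007_nt.PoissonStatistics
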